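import Pool.Agent.H354.RD.Main

/-! Project H354-NORE: an RD domain that is not Ore. Statements of the tasks. -/

set_option autoImplicit false

namespace H354P

open Matrix

/-- certificate that `coker A` is a direct summand of `R/r_1R + ... + R/r_lR` -/
def Cert {R : Type} [Ring R] {m n : ℕ} (A : Matrix (Fin m) (Fin n) R) : Prop :=
  ∃ (l : ℕ) (r : Fin l → R) (U : Matrix (Fin m) (Fin l) R) (X : Matrix (Fin l) (Fin m) R)
    (s : Matrix (Fin n) (Fin m) R) (z : Matrix (Fin l) (Fin n) R) (w : Matrix (Fin n) (Fin l) R),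
    U * X + A * s = 1 ∧ X * A = diagonal r * z ∧ U * diagonal r = A * w

/-- the idempotent `p` is nonzero and `rho v ≠ 0` for nonzero rows `rho = rho p` and nonzero columns
`v = p v` -/
def DomLike {R : Type} [Ring R] {m : ℕ} (p : Matrix (Fin m) (Fin m) R) : Prop :=
  p * p = p ∧ p ≠ 0 ∧
    ∀ ρ v : Fin m → R, ρ ᵥ* p = ρ → p *ᵥ v = v → ρ ⬝ᵥ v = 0 → ρ = 0 ∨ v = 0

/-- splitting of the left kernel of `A` -/
def TaskE1 (k : Type) [Field k] : Prop :=
  ∀ (R : Type) [Ring R] [Algebra k R] [IsDomain R] (m n : ℕ) (A : Matrix (Fin m) (Fin n) R),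
    ∃ (S : Type) (_ : Ring S) (_ : Algebra k S) (_ : IsDomain S) (φ : R →ₐ[k] S)
      (e : Matrix (Fin m) (Fin m) S),
      Function.Injective φ ∧ e * A.map φ = 0 ∧
      (∀ ρ : Fin m → S, ρ ᵥ* A.map φ = 0 → ρ ᵥ* e = ρ) ∧
      ∀ (s t : ℕ) (B : Matrix (Fin s) (Fin t) R) (g : Matrix (Fin t) (Fin t) R), B * g = 0 →
        (∀ y : Fin t → R, B *ᵥ y = 0 → g *ᵥ y = y) →
        ∀ y : Fin t → S, B.map φ *ᵥ y = 0 → g.map φ *ᵥ y = y

/-- splitting of the right kernel of `A` (the dual of `TaskE1`) -/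
def TaskE2 (k : Type) [Field k] : Prop :=
  ∀ (R : Type) [Ring R] [Algebra k R] [IsDomain R] (m n : ℕ) (A : Matrix (Fin m) (Fin n) R),
    ∃ (S : Type) (_ : Ring S) (_ : Algebra k S) (_ : IsDomain S) (φ : R →ₐ[k] S)
      (f : Matrix (Fin n) (Fin n) S),
      Function.Injective φ ∧ A.map φ * f = 0 ∧
      (∀ y : Fin n → S, A.map φ *ᵥ y = 0 → f *ᵥ y = y) ∧
      ∀ (s t : ℕ) (B : Matrix (Fin s) (Fin t) R) (g : Matrix (Fin s) (Fin s) R), g * B = 0 →
        (∀ ρ : Fin s → R, ρ ᵥ* B = 0 → ρ ᵥ* g = ρ) →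
        ∀ ρ : Fin s → S, ρ ᵥ* B.map φ = 0 → ρ ᵥ* g.map φ = ρ

/-- generic partial inverse of a matrix that is injective on both sides modulo `e`, `f` -/
def TaskE4 (k : Type) [Field k] : Prop :=
  ∀ (R : Type) [Ring R] [Algebra k R] [IsDomain R] (m n : ℕ) (A : Matrix (Fin m) (Fin n) R)
    (e : Matrix (Fin m) (Fin m) R) (f : Matrix (Fin n) (Fin n) R),
    e * A = 0 → A * f = 0 → (∀ ρ : Fin m → R, ρ ᵥ* A = 0 → ρ ᵥ* e = ρ) →
    (∀ y : Fin n → R, A *ᵥ y = 0 → f *ᵥ y = y) →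
    (¬ ∃ (c : Fin m → R) (d : Fin n → R), A = vecMulVec c d) →
    ∃ (S : Type) (_ : Ring S) (_ : Algebra k S) (_ : IsDomain S) (φ : R →ₐ[k] S)
      (s : Matrix (Fin n) (Fin m) S),
      Function.Injective φ ∧ s * A.map φ * s = s ∧ s * e.map φ = 0 ∧ f.map φ * s = 0 ∧
      DomLike (1 - f.map φ - s * A.map φ) ∧ DomLike (1 - e.map φ - A.map φ * s)

/-- making two rank one projective modules without zero divisors free -/
def TaskT (k : Type) [Field k] : Prop :=
  ∀ (R : Type) [Ring R] [Algebra k R] [IsDomain R] (m n : ℕ) (p : Matrix (Fin m) (Fin m) R)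
    (q : Matrix (Fin n) (Fin n) R), DomLike p → DomLike q →
    ∃ (S : Type) (_ : Ring S) (_ : Algebra k S) (_ : IsDomain S) (φ : R →ₐ[k] S)
      (a : Matrix (Fin m) (Fin 1) S) (b : Matrix (Fin 1) (Fin m) S)
      (c : Matrix (Fin n) (Fin 1) S) (d : Matrix (Fin 1) (Fin n) S),
      Function.Injective φ ∧ a * b = p.map φ ∧ b * a = 1 ∧ c * d = q.map φ ∧ d * c = 1

open CategoryTheory in
/-- a `k`-linear category without zero divisors maps faithfully to a domain -/
def TaskT0 (k : Type) [Field k] : Prop :=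
  ∀ (C : Type) [SmallCategory C] [Preadditive C] [Linear k C],
    (∀ (X Y Z : C) (f : X ⟶ Y) (g : Y ⟶ Z), f ≠ 0 → g ≠ 0 → f ≫ g ≠ 0) →
    (∀ X : C, 𝟙 X ≠ 0) → Nonempty C →
    ∃ (S : Type) (_ : Ring S) (_ : Algebra k S) (_ : IsDomain S)
      (F : ∀ X Y : C, (X ⟶ Y) →ₗ[k] S),
      (∀ X Y : C, Function.Injective (F X Y)) ∧ (∀ X : C, F X X (𝟙 X) = 1) ∧
      ∀ (X Y Z : C) (f : X ⟶ Y) (g : Y ⟶ Z), F X Z (f ≫ g) = F Y Z g * F X Y f

/-- from categories to idempotent matrices -/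
def TaskT1 (k : Type) [Field k] : Prop := TaskT0 k → TaskT k

/-- opposite rings -/
def TaskDual (k : Type) [Field k] : Prop := TaskE1 k → TaskE2 k

/-- every matrix gets a certificate in a domain extension -/
def TheoremX (k : Type) [Field k] : Prop :=
  ∀ (R : Type) [Ring R] [Algebra k R] [IsDomain R] (m n : ℕ) (A : Matrix (Fin m) (Fin n) R),
    ∃ (S : Type) (_ : Ring S) (_ : Algebra k S) (_ : IsDomain S) (φ : R →ₐ[k] S),
      Function.Injective φ ∧ Cert (A.map φ)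

/-- glue -/
def TaskX (k : Type) [Field k] : Prop :=
  TaskE1 k → TaskE2 k → TaskE4 k → TaskT k → TheoremX k

/-- a domain with `R^2 = R^3` -/
def HasBase (k : Type) [Field k] : Prop :=
  ∃ (R : Type) (_ : Ring R) (_ : Algebra k R) (_ : IsDomain R)
    (P : Matrix (Fin 3) (Fin 2) R) (Q : Matrix (Fin 2) (Fin 3) R), P * Q = 1 ∧ Q * P = 1

/-- base -/
def TaskBase (k : Type) [Field k] : Prop := TaskE4 k → TaskT k → HasBase k

/-- direct limit: a countable domain algebra over a countable field embeds in a domain in which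
every matrix has a certificate -/
def TaskL (k : Type) [Field k] : Prop :=
  Countable k → TheoremX k → ∀ (R : Type) [Ring R] [Algebra k R] [IsDomain R], Countable R →
    ∃ (S : Type) (_ : Ring S) (_ : IsDomain S) (φ : R →+* S), Function.Injective φ ∧
      ∀ (m n : ℕ) (A : Matrix (Fin m) (Fin n) S), Cert A

end H354P
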