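import Pool.Agent.H354.NORE.K

/-! NORE, E1: preservation of split right kernels. -/

set_option autoImplicit false
set_option linter.unusedSectionVars false

namespace Pool.Agent.H623R3.NORE

open TensorProduct MulOpposite Matrix

section
variable (k : Type) [Field k] {R : Type} [Ring R] [Algebra k R] {m : ℕ}
  (C : Submodule Rᵐᵒᵖ (Fin m → R))

/-- pairing with an element of `C` -/
noncomputable def Gc (c : C) : VV k C R →ₗ[k] R :=
  (KK k C R).liftQ
    { toFun := fun ρ => ∑ q, ρ q * (c : Fin m → R) q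
      map_add' := fun a b => by simp only [Pi.add_apply, add_mul, Finset.sum_add_distrib]
      map_smul' := fun s a => by
        simp only [Pi.smul_apply, smul_mul_assoc, RingHom.id_apply, Finset.smul_sum] }
    (by
      intro ρ hρ
      rw [LinearMap.mem_ker]
      exact hρ c c.2)

theorem Gc_mk (c : C) (ρ : Fin m → R) :
    Gc k C c (Submodule.Quotient.mk ρ) = ∑ q, ρ q * (c : Fin m → R) q := rfl

theorem Gc_sep (v : VV k C R) (h : ∀ c, Gc k C c v = 0) : v = 0 := by
  obtain ⟨ρ, rfl⟩ := Submodule.Quotient.mk_surjective _ v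
  rw [Submodule.Quotient.mk_eq_zero]
  intro c hc
  exact h ⟨c, hc⟩

theorem Gc_Vm (c : C) (b : R) (v : VV k C R) :
    Gc k C c (Vm k C (hx b) v) = b * Gc k C c v := by
  obtain ⟨ρ, rfl⟩ := Submodule.Quotient.mk_surjective _ v
  rw [Vm_mk, Gc_mk, Gc_mk, Finset.mul_sum]
  refine Finset.sum_congr rfl fun q _ => ?_
  show (b * ρ q) * _ = _
  rw [mul_assoc]

/-- coordinates over a basis of the right factor -/
noncomputable def eW (f : WW k C →ₗ[k] k) : (VV k C R ⊗[k] WW k C) →ₗ[k] VV k C R :=
  (TensorProduct.rid k (VV k C R)).toLinearMap ∘ₗ LinearMap.lTensor (VV k C R) f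

theorem eW_tmul (f : WW k C →ₗ[k] k) (v : VV k C R) (t : WW k C) :
    eW k C f (v ⊗ₜ[k] t) = f t • v := by
  simp [eW]

theorem eW_rTensor (f : WW k C →ₗ[k] k) (h : VV k C R →ₗ[k] VV k C R)
    (ξ : VV k C R ⊗[k] WW k C) :
    eW k C f (LinearMap.rTensor (WW k C) h ξ) = h (eW k C f ξ) := by
  induction ξ using TensorProduct.induction_on with
  | zero => simp
  | add x y hx hy => rw [map_add, map_add, map_add, hx, hy, map_add]
  | tmul v t => rw [LinearMap.rTensor_tmul, eW_tmul, eW_tmul, map_smul]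

theorem eW_sep (ξ : VV k C R ⊗[k] WW k C) (h : ∀ f, eW k C f ξ = 0) : ξ = 0 := by
  classical
  let b := Module.Basis.ofVectorSpace k (WW k C)
  have h1 : (TensorProduct.equivFinsuppOfBasisRight (M := VV k C R) b) ξ = 0 := by
    ext i
    have h2 : ∀ ξ : VV k C R ⊗[k] WW k C,
        (TensorProduct.equivFinsuppOfBasisRight (M := VV k C R) b) ξ i = eW k C (b.coord i) ξ := by
      intro ξ
      induction ξ using TensorProduct.induction_on with
      | zero => simp
      | add x y hx hy => rw [map_add, Finsupp.add_apply, hx, hy, map_add]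
      | tmul v t =>
        rw [TensorProduct.equivFinsuppOfBasisRight_apply_tmul_apply, eW_tmul]
        rfl
    rw [h2, h]
    rfl
  exact (LinearEquiv.map_eq_zero_iff _).1 h1

theorem TH_fst (b : R) (x : TT k C (WW k C) R) :
    (TH k C (WW k C) R b x).1 = b * x.1 := rfl

theorem TH_snd (b : R) (x : TT k C (WW k C) R) :
    (TH k C (WW k C) R b x).2 = LinearMap.rTensor (WW k C) (Vm k C (hx b)) x.2 := rfl

/-- preservation of split right kernels -/
theorem rightP {s t : ℕ} (B : Matrix (Fin s) (Fin t) R) (g : Matrix (Fin t) (Fin t) R)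
    (hg : ∀ y : Fin t → R, B *ᵥ y = 0 → g *ᵥ y = y) (μ : Fin t → TT k C (WW k C) R)
    (h : ∀ i, ∑ j, TH k C (WW k C) R (B i j) (μ j) = 0) (i : Fin t) :
    ∑ j, TH k C (WW k C) R (g i j) (μ j) = μ i := by
  refine Prod.ext ?_ ?_
  · rw [Prod.fst_sum]
    have h1 : B *ᵥ (fun j => (μ j).1) = 0 := by
      funext i
      have h2 := congrArg Prod.fst (h i)
      rw [Prod.fst_sum] at h2
      exact h2
    exact congrFun (hg _ h1) i
  · rw [Prod.snd_sum, ← sub_eq_zero]
    apply eW_sep
    intro f
    apply Gc_sep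
    intro c
    have h1 : B *ᵥ (fun j => Gc k C c (eW k C f (μ j).2)) = 0 := by
      funext i
      have h2 := congrArg (fun x => Gc k C c (eW k C f (Prod.snd x))) (h i)
      simp only [Prod.snd_sum, map_sum, TH_snd, eW_rTensor, Gc_Vm, Prod.snd_zero, map_zero] at h2
      exact h2
    have h3 := congrFun (hg _ h1) i
    rw [map_sub, map_sub, map_sum, map_sum, sub_eq_zero]
    simp only [TH_snd, eW_rTensor, Gc_Vm]
    exact h3

end

end Pool.Agent.H623R3.NORE
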