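import Pool.Agent.H623R3.NORE.Asm
import Pool.Agent.H354.NORE.P

/-! NORE, E1: end of the proof. -/

set_option autoImplicit false

namespace Pool.Agent.H623R3.NORE

open TensorProduct MulOpposite Matrix

theorem taskE1 (k : Type) [Field k] : H354P.TaskE1 k := by
  refine taskE1_of k fun R _ _ _ m n A => ⟨?_, ?_⟩
  · have hinj : Function.Injective (Th k (CA A) R) := by
      rw [injective_iff_map_eq_zero]
      intro t ht
      by_contra hne
      have h10 : ((1 : R), (0 : VV k (CA A) R ⊗[k] WW k (CA A))) ≠ 0 := fun h =>
        one_ne_zero (congrArg Prod.fst h)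
      exact claimD' k A h10 hne (by rw [ht]; rfl)
    intro t h q
    exact leftK k (CA A) A (fun y => mem_CA.symm) hinj t h q
  · intro s t B g _ hker μ h i
    exact rightP k (CA A) B g hker μ h i

end Pool.Agent.H623R3.NORE
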