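import Pool.Agent.H354.NORE.Stmts

/-! A ring in which every matrix has a certificate is an RD ring. -/

set_option autoImplicit false

namespace H354P

open Matrix MulOpposite H354RD

section
variable {R : Type} [Ring R] {M : Type} [AddCommGroup M] [Module Rᵐᵒᵖ M]

/-- row vector times matrix -/
def act {m n : ℕ} (x : Fin m → M) (B : Matrix (Fin m) (Fin n) R) : Fin n → M :=
  fun j => ∑ i, op (B i j) • x i

theorem act_act {m n l : ℕ} (x : Fin m → M) (B : Matrix (Fin m) (Fin n) R)
    (C : Matrix (Fin n) (Fin l) R) : act (act x B) C = act x (B * C) := by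
  funext j
  simp only [act, Finset.smul_sum, Matrix.mul_apply]
  rw [Finset.sum_comm]
  refine Finset.sum_congr rfl fun i _ => ?_
  have : op (∑ j', B i j' * C j' j) = ∑ j', op (C j' j) * op (B i j') := by
    rw [Finset.op_sum]
    exact Finset.sum_congr rfl fun _ _ => op_mul _ _
  rw [this, Finset.sum_smul]
  exact Finset.sum_congr rfl fun _ _ => (mul_smul _ _ _).symm

theorem act_add {m n : ℕ} (x : Fin m → M) (B C : Matrix (Fin m) (Fin n) R) :
    act x (B + C) = act x B + act x C := by
  funext j
  simp only [act, Pi.add_apply, Matrix.add_apply, op_add, add_smul, Finset.sum_add_distrib]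

theorem act_add' {m n : ℕ} (x y : Fin m → M) (B : Matrix (Fin m) (Fin n) R) :
    act (x + y) B = act x B + act y B := by
  funext j
  simp only [act, Pi.add_apply, smul_add, Finset.sum_add_distrib]

theorem act_one {m : ℕ} (x : Fin m → M) : act x (1 : Matrix (Fin m) (Fin m) R) = x := by
  funext j
  simp only [act]
  rw [Finset.sum_eq_single j]
  · rw [Matrix.one_apply_eq, op_one, one_smul]
  · intro b _ hb
    rw [Matrix.one_apply_ne hb, op_zero, zero_smul]
  · intro h; exact absurd (Finset.mem_univ _) h

theorem act_diag {m : ℕ} (x : Fin m → M) (r : Fin m → R) (j : Fin m) :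
    act x (diagonal r) j = op (r j) • x j := by
  simp only [act]
  rw [Finset.sum_eq_single j]
  · rw [Matrix.diagonal_apply_eq]
  · intro b _ hb
    rw [Matrix.diagonal_apply_ne _ hb, op_zero, zero_smul]
  · intro h; exact absurd (Finset.mem_univ _) h

theorem act_mem {m n : ℕ} (N : Submodule Rᵐᵒᵖ M) (x : Fin m → M) (hx : ∀ i, x i ∈ N)
    (B : Matrix (Fin m) (Fin n) R) (j : Fin n) : act x B j ∈ N :=
  Submodule.sum_mem _ fun i _ => N.smul_mem _ (hx i)

end

theorem rd_of_cert (R : Type) [Ring R] (h : ∀ (m n : ℕ) (A : Matrix (Fin m) (Fin n) R), Cert A) :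
    IsRD R := by
  intro M _ _ N hN m n A y hy hx
  obtain ⟨x, hx⟩ := hx
  have hxA : act x A = y := funext hx
  obtain ⟨l, r, U, X, s, z, w, h1, h2, h3⟩ := h m n A
  have h4 : act (act x U) (diagonal r) = act y w := by
    rw [act_act, h3, ← act_act, hxA]
  have h5 : ∀ j, ∃ ν ∈ N, op (r j) • ν = act y w j := by
    intro j
    obtain ⟨ν, hν, hν2⟩ := hN (r j) (act x U j) (by
      rw [← act_diag, h4]; exact act_mem N y hy w j)
    refine ⟨ν, hν, ?_⟩
    rw [hν2, ← act_diag, h4]
  choose ν hν hν2 using h5
  have h6 : act ν (diagonal r) = act y w := by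
    funext j
    rw [act_diag, hν2]
  refine ⟨act ν X + act y s, fun i => ?_, fun j => ?_⟩
  · exact N.add_mem (act_mem N ν hν X i) (act_mem N y hy s i)
  · show act (act ν X + act y s) A j = y j
    have h7 : act (act ν X + act y s) A = y := by
      rw [act_add', act_act, h2, ← act_act, h6, act_act]
      calc act y (w * z) + act (act y s) A = act (act y w) z + act (act y s) A := by
            rw [act_act y w z]
        _ = act (act (act x U) (diagonal r)) z + act (act (act x A) s) A := by rw [h4, hxA]
        _ = act x ((U * X + A * s) * A) := by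
            rw [Matrix.add_mul, act_add, Matrix.mul_assoc U X A, h2]
            simp only [act_act, Matrix.mul_assoc]
        _ = y := by rw [h1, Matrix.one_mul, hxA]
    rw [h7]

end H354P
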