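import Pool.Agent.H354.NORE.X
import Pool.Agent.H354.NORE.RDC

/-! Assembly: a non-Ore RD domain from the tasks. -/

set_option autoImplicit false

namespace H354P

open Matrix H354RD

theorem countable_base (h : HasBase ℚ) :
    ∃ (R : Type) (_ : Ring R) (_ : Algebra ℚ R) (_ : IsDomain R) (_ : Countable R)
      (P : Matrix (Fin 3) (Fin 2) R) (Q : Matrix (Fin 2) (Fin 3) R), P * Q = 1 ∧ Q * P = 1 := by
  obtain ⟨R, _, _, _, P, Q, h1, h2⟩ := h
  let s : Set R := Set.range (fun x : Fin 3 × Fin 2 => P x.1 x.2) ∪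
    Set.range (fun x : Fin 2 × Fin 3 => Q x.1 x.2)
  have hs : s.Countable := (Set.countable_range _).union (Set.countable_range _)
  let P' : Matrix (Fin 3) (Fin 2) (Algebra.adjoin ℚ s) := fun i j =>
    ⟨P i j, Algebra.subset_adjoin (Or.inl ⟨(i, j), rfl⟩)⟩
  let Q' : Matrix (Fin 2) (Fin 3) (Algebra.adjoin ℚ s) := fun i j =>
    ⟨Q i j, Algebra.subset_adjoin (Or.inr ⟨(i, j), rfl⟩)⟩
  have hP : P'.map (Algebra.adjoin ℚ s).val = P := rfl
  have hQ : Q'.map (Algebra.adjoin ℚ s).val = Q := rfl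
  have hinj : Function.Injective (Algebra.adjoin ℚ s).val := Subtype.val_injective
  refine ⟨Algebra.adjoin ℚ s, inferInstance, inferInstance, inferInstance, ?_, P', Q', ?_, ?_⟩
  · have h3 := Algebra.cardinalMk_adjoin_le ℚ s
    have h4 : Cardinal.mk s ≤ Cardinal.aleph0 := Cardinal.le_aleph0_iff_set_countable.2 hs
    rw [← Cardinal.mk_le_aleph0_iff]
    refine h3.trans ?_
    simp [h4]
  · apply Matrix.map_injective hinj
    show (P' * Q').map _ = (1 : Matrix (Fin 3) (Fin 3) _).map _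
    rw [Matrix.map_mul, hP, hQ, h1, Matrix.map_one _ (map_zero _) (map_one _)]
  · apply Matrix.map_injective hinj
    show (Q' * P').map _ = (1 : Matrix (Fin 2) (Fin 2) _).map _
    rw [Matrix.map_mul, hP, hQ, h2, Matrix.map_one _ (map_zero _) (map_one _)]

theorem not_embeds {S : Type} [Ring S] (P : Matrix (Fin 3) (Fin 2) S)
    (Q : Matrix (Fin 2) (Fin 3) S) (h1 : P * Q = 1) (h2 : Q * P = 1) : ¬ EmbedsDivision S := by
  rintro ⟨D, _, f, -⟩
  have h1' : P.map f * Q.map f = 1 := by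
    rw [← Matrix.map_mul, h1, Matrix.map_one _ (map_zero _) (map_one _)]
  have h2' : Q.map f * P.map f = 1 := by
    rw [← Matrix.map_mul, h2, Matrix.map_one _ (map_zero _) (map_one _)]
  have e : (Fin 3 → D) ≃ₗ[D] (Fin 2 → D) := 
    (LinearEquiv.ofLinearMap (Matrix.toLinearMapRight' (P.map f)) (Matrix.toLinearMapRight' (Q.map f))
      (by rw [← Matrix.toLinearMapRight'_mul, h2', Matrix.toLinearMapRight'_one])
      (by rw [← Matrix.toLinearMapRight'_mul, h1', Matrix.toLinearMapRight'_one]))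
  have := eq_of_fin_equiv D e
  omega

theorem nonOre_of (hE1 : TaskE1 ℚ) (hDual : TaskDual ℚ) (hE4 : TaskE4 ℚ) (hT : TaskT ℚ)
    (hBase : TaskBase ℚ) (hL : TaskL ℚ) :
    ∃ (R : Type) (_ : Ring R), IsDomain R ∧ IsRD R ∧ ¬ LeftOre R ∧ ¬ RightOre R := by
  obtain ⟨R, _, _, _, _, P, Q, h1, h2⟩ := countable_base (hBase hE4 hT)
  have hX : TheoremX ℚ := taskX ℚ hE1 (hDual hE1) hE4 hT
  obtain ⟨S, _, _, φ, hφ, hS⟩ := hL inferInstance hX R inferInstance
  have h1' : P.map φ * Q.map φ = 1 := by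
    rw [← Matrix.map_mul, h1, Matrix.map_one _ (map_zero _) (map_one _)]
  have h2' : Q.map φ * P.map φ = 1 := by
    rw [← Matrix.map_mul, h2, Matrix.map_one _ (map_zero _) (map_one _)]
  refine ⟨S, inferInstance, inferInstance, rd_of_cert S hS, fun h => ?_, fun h => ?_⟩
  · exact not_embeds _ _ h1' h2' (embeds_of_leftOre h)
  · exact not_embeds _ _ h1' h2' (embeds_of_rightOre h)

end H354P
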