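import Pool.Agent.H623R3.NORE.Clo

/-! NORE, E1: the left kernel of `A` over `S`. -/

set_option autoImplicit false
set_option linter.unusedSectionVars false

namespace Pool.Agent.H623R3.NORE

open TensorProduct MulOpposite Matrix

section
variable (k : Type) [Field k] {R : Type} [Ring R] [Algebra k R] {m : ℕ}
  (C : Submodule Rᵐᵒᵖ (Fin m → R))

variable {X Y : Type} [AddCommGroup X] [Module k X] [Module Rᵐᵒᵖ X] [IsScalarTower k Rᵐᵒᵖ X]

theorem lsum_comp {M N P : Type} [AddCommGroup M] [Module k M] [AddCommGroup N] [Module k N]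
    [AddCommGroup P] [Module k P] {ι : Type} (F : Finset ι) (f : ι → (N →ₗ[k] P)) (g : M →ₗ[k] N) :
    (∑ i ∈ F, f i) ∘ₗ g = ∑ i ∈ F, f i ∘ₗ g := by
  refine LinearMap.ext fun x => ?_
  simp [LinearMap.sum_apply]

theorem lcomp_sum {M N P : Type} [AddCommGroup M] [Module k M] [AddCommGroup N] [Module k N]
    [AddCommGroup P] [Module k P] {ι : Type} (F : Finset ι) (f : ι → (M →ₗ[k] N)) (g : N →ₗ[k] P) :
    g ∘ₗ (∑ i ∈ F, f i) = ∑ i ∈ F, g ∘ₗ f i := by
  refine LinearMap.ext fun x => ?_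
  simp [LinearMap.sum_apply]

/-- right multiplication -/
def raX (X : Type) [AddCommGroup X] [Module k X] [Module Rᵐᵒᵖ X] [IsScalarTower k Rᵐᵒᵖ X]
    (a : R) : X →ₗ[k] X where
  toFun n := op a • n
  map_add' := smul_add _
  map_smul' t n := by
    rw [RingHom.id_apply, ← algebraMap_smul Rᵐᵒᵖ t n, ← algebraMap_smul Rᵐᵒᵖ t (op a • n),
      ← mul_smul, ← mul_smul]
    congr 1
    exact (Algebra.commutes t (op a)).symm

theorem raX_apply (a : R) (x : X) : raX k X a x = op a • x := rfl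

theorem TH_TH (x : X) (a : R) :
    TH k C (WW k C) X x ∘ₗ TH k C (WW k C) R a = TH k C (WW k C) X (op a • x) := by
  rw [TH_apply k C x, Tm_TH]
  rfl

/-- right multiplication on words -/
noncomputable def raW (a : R) : WW k C →ₗ[k] WW k C :=
  Finsupp.mapRange.linearMap (raX k (NN C) a)

theorem raW_single (a : R) (w : List (bet k C)) (n : NN C) :
    raW k C a (Finsupp.single w n) = Finsupp.single w (op a • n) := by
  simp [raW, raX_apply]

theorem raW_apply (a : R) (t : WW k C) (w : List (bet k C)) :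
    raW k C a t w = op a • t w := by
  simp [raW, raX_apply]

theorem Om_TH (a : R) (t : WW k C) :
    Om k C t ∘ₗ TH k C (WW k C) R a = Om k C (raW k C a t) := by
  induction t using Finsupp.induction_linear with
  | zero => rw [map_zero, map_zero, LinearMap.zero_comp, map_zero]
  | add x y hx hy => rw [map_add, LinearMap.add_comp, hx, hy, map_add, map_add]
  | single w n => rw [raW_single, Om_single, Om_single, LinearMap.comp_assoc, TH_TH]

theorem Psi_TH (a : R) (ξ : VV k C R ⊗[k] WW k C) :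
    Psi k C R ξ ∘ₗ TH k C (WW k C) R a =
      Psi k C R (LinearMap.lTensor (VV k C R) (raW k C a) ξ) := by
  induction ξ using TensorProduct.induction_on with
  | zero => rw [map_zero, map_zero, LinearMap.zero_comp, map_zero]
  | add x y hx hy => rw [map_add, LinearMap.add_comp, hx, hy, map_add, map_add]
  | tmul v t => rw [LinearMap.lTensor_tmul, Psi_tmul, Psi_tmul, LinearMap.comp_assoc, Om_TH]

theorem Th_TH (a : R) (t : TT k C (WW k C) R) :
    Th k C R t ∘ₗ TH k C (WW k C) R a =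
      Th k C R (op a • t.1, LinearMap.lTensor (VV k C R) (raW k C a) t.2) := by
  obtain ⟨r, ξ⟩ := t
  rw [Th_apply, Th_apply, LinearMap.add_comp, TH_TH, Psi_TH]

theorem nus_eq (ν : Fin m → X) :
    ∑ p, TH k C (WW k C) X (ν p) ∘ₗ sg k C p = nus k C ν := rfl

theorem nus_pe {ν : Fin m → X} (h : ν ∈ KK k C X) (q : Fin m) :
    nus k C ν ∘ₗ TH k C (WW k C) (NN C) (pe C q) = TH k C (WW k C) X (ν q) := by
  obtain ⟨g, hg⟩ := exists_g k C h
  rw [nus_K k C hg, Tm_TH, hg]

variable {n : ℕ} (A : Matrix (Fin m) (Fin n) R)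
  (hC : ∀ y : Fin m → R, (∀ z : Fin m → R, z ᵥ* A = 0 → z ⬝ᵥ y = 0) ↔ y ∈ C)

include hC in
theorem mem_KK_R (r : Fin m → R) (h : ∀ j, ∑ p, op (A p j) • r p = 0) : r ∈ KK k C R := by
  intro c hc
  have h1 : r ᵥ* A = 0 := by
    funext j
    exact h j
  exact (hC c).2 hc r h1

include hC in
theorem mem_KK_N (ν : Fin m → NN C) (h : ∀ j, ∑ p, op (A p j) • ν p = 0) : ν ∈ KK k C (NN C) := by
  have hy : ∀ p, ∃ y : Fin m → R, (Submodule.Quotient.mk y : NN C) = ν p := fun p =>
    Submodule.Quotient.mk_surjective _ (ν p)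
  choose y hy using hy
  have hsum : ∀ a : Fin m → R, ∑ p, op (a p) • ν p = C.mkQ (∑ p, op (a p) • y p) := by
    intro a
    rw [map_sum]
    refine Finset.sum_congr rfl fun p _ => ?_
    rw [← hy p, map_smul]
    rfl
  intro c hc
  rw [hsum]
  refine (Submodule.Quotient.mk_eq_zero C).2 ?_
  rw [← hC]
  intro z hz
  have h2 : (fun p => z ⬝ᵥ y p) ᵥ* A = 0 := by
    funext j
    have h3 := h j
    rw [hsum (fun p => A p j)] at h3
    have h4 : (∑ p, op (A p j) • y p) ∈ C := (Submodule.Quotient.mk_eq_zero C).1 h3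
    have h5 := (hC _).2 h4 z hz
    rw [dotProduct_sum] at h5
    show ∑ p, (z ⬝ᵥ y p) * A p j = 0
    rw [← h5]
    refine Finset.sum_congr rfl fun p _ => ?_
    rw [dotProduct_smul]
    rfl
  have h6 := (hC c).2 hc _ h2
  rw [dotProduct_sum]
  have h7 : ∑ p, (z ⬝ᵥ y p) * c p = 0 := h6
  rw [← h7]
  refine Finset.sum_congr rfl fun p _ => ?_
  rw [dotProduct_smul]
  rfl

theorem Om_expand (t : WW k C) (F : Finset (List (bet k C))) (hF : t.support ⊆ F) :
    Om k C t = ∑ w ∈ F, wop k C w ∘ₗ TH k C (WW k C) (NN C) (t w) := by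
  have h : t = ∑ w ∈ F, Finsupp.single w (t w) := by
    conv_lhs => rw [← Finsupp.sum_single t]
    exact Finsupp.sum_of_support_subset _ hF _ (fun _ _ => Finsupp.single_zero _)
  conv_lhs => rw [h]
  rw [map_sum]
  exact Finset.sum_congr rfl fun w _ => Om_single k C w _

include hC in
theorem Om_K (t : Fin m → WW k C) (h : ∀ j w, ∑ p, op (A p j) • t p w = 0) (q : Fin m) :
    ∑ p, Om k C (t p) ∘ₗ (sg k C p ∘ₗ TH k C (WW k C) (NN C) (pe C q)) = Om k C (t q) := by
  let F : Finset (List (bet k C)) := Finset.univ.biUnion fun p => (t p).support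
  have hF : ∀ p, (t p).support ⊆ F := fun p => Finset.subset_biUnion_of_mem
    (fun p => (t p).support) (Finset.mem_univ p)
  have h1 : ∀ p, Om k C (t p) ∘ₗ (sg k C p ∘ₗ TH k C (WW k C) (NN C) (pe C q)) =
      ∑ w ∈ F, wop k C w ∘ₗ ((TH k C (WW k C) (NN C) (t p w) ∘ₗ sg k C p) ∘ₗ
        TH k C (WW k C) (NN C) (pe C q)) := by
    intro p
    rw [Om_expand k C (t p) F (hF p), lsum_comp]
    refine Finset.sum_congr rfl fun w _ => ?_
    simp only [LinearMap.comp_assoc]
  rw [Finset.sum_congr rfl fun p _ => h1 p, Finset.sum_comm, Om_expand k C (t q) F (hF q)]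
  refine Finset.sum_congr rfl fun w _ => ?_
  rw [← lcomp_sum, ← lsum_comp, nus_eq k C (fun p => t p w)]
  congr 1
  exact nus_pe k C (mem_KK_N k C A hC _ fun j => h j w) q

noncomputable instance instDecBR : DecidableEq (Module.Basis.ofVectorSpaceIndex k (VV k C R)) :=
  Classical.decEq _

/-- coordinates over a basis of the left factor -/
noncomputable def cR : (VV k C R ⊗[k] WW k C) ≃ₗ[k]
    (Module.Basis.ofVectorSpaceIndex k (VV k C R) →₀ WW k C) :=
  TensorProduct.equivFinsuppOfBasisLeft (Module.Basis.ofVectorSpace k (VV k C R))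

theorem cR_lTensor (f : WW k C →ₗ[k] WW k C) (ξ : VV k C R ⊗[k] WW k C)
    (i : Module.Basis.ofVectorSpaceIndex k (VV k C R)) :
    cR k C (LinearMap.lTensor (VV k C R) f ξ) i = f (cR k C ξ i) := by
  induction ξ using TensorProduct.induction_on with
  | zero => simp
  | add x y hx hy => rw [map_add, map_add, map_add, Finsupp.add_apply, hx, hy, Finsupp.add_apply,
      map_add]
  | tmul v t =>
    rw [LinearMap.lTensor_tmul, cR, TensorProduct.equivFinsuppOfBasisLeft_apply_tmul_apply,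
      TensorProduct.equivFinsuppOfBasisLeft_apply_tmul_apply, map_smul]

theorem Psi_expand (ξ : VV k C R ⊗[k] WW k C)
    (F : Finset (Module.Basis.ofVectorSpaceIndex k (VV k C R))) (hF : (cR k C ξ).support ⊆ F) :
    Psi k C R ξ = ∑ i ∈ F, nus k C (lam k C R (Module.Basis.ofVectorSpace k (VV k C R) i)) ∘ₗ
      Om k C (cR k C ξ i) := by
  have h : ξ = ∑ i ∈ F, (Module.Basis.ofVectorSpace k (VV k C R) i) ⊗ₜ[k] (cR k C ξ i) := by
    have h1 : (cR k C).symm (cR k C ξ) = ξ := (cR k C).symm_apply_apply ξ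
    conv_lhs => rw [← h1]
    rw [cR, TensorProduct.equivFinsuppOfBasisLeft_symm_apply]
    exact Finsupp.sum_of_support_subset _ hF _ (fun _ _ => TensorProduct.tmul_zero _ _)
  conv_lhs => rw [h]
  rw [map_sum]
  rfl

include hC in
theorem Psi_K (ξ : Fin m → VV k C R ⊗[k] WW k C)
    (h : ∀ j, ∑ p, LinearMap.lTensor (VV k C R) (raW k C (A p j)) (ξ p) = 0) (q : Fin m) :
    ∑ p, Psi k C R (ξ p) ∘ₗ (sg k C p ∘ₗ TH k C (WW k C) (NN C) (pe C q)) =
      Psi k C R (ξ q) := by
  have h' : ∀ i j w, ∑ p, op (A p j) • (cR k C (ξ p) i) w = 0 := by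
    intro i j w
    have h1 := congrArg (fun x => cR k C x i w) (h j)
    simp only [map_sum, Finsupp.finsetSum_apply, cR_lTensor, raW_apply, map_zero,
      Finsupp.zero_apply] at h1
    exact h1
  let F : Finset (Module.Basis.ofVectorSpaceIndex k (VV k C R)) :=
    Finset.univ.biUnion fun p => (cR k C (ξ p)).support
  have hF : ∀ p, (cR k C (ξ p)).support ⊆ F := fun p => Finset.subset_biUnion_of_mem
    (fun p => (cR k C (ξ p)).support) (Finset.mem_univ p)
  have h1 : ∀ p, Psi k C R (ξ p) ∘ₗ (sg k C p ∘ₗ TH k C (WW k C) (NN C) (pe C q)) =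
      ∑ i ∈ F, nus k C (lam k C R (Module.Basis.ofVectorSpace k (VV k C R) i)) ∘ₗ
        (Om k C (cR k C (ξ p) i) ∘ₗ (sg k C p ∘ₗ TH k C (WW k C) (NN C) (pe C q))) := by
    intro p
    rw [Psi_expand k C (ξ p) F (hF p), lsum_comp]
    refine Finset.sum_congr rfl fun w _ => ?_
    simp only [LinearMap.comp_assoc]
  rw [Finset.sum_congr rfl fun p _ => h1 p, Finset.sum_comm, Psi_expand k C (ξ q) F (hF q)]
  refine Finset.sum_congr rfl fun i _ => ?_
  rw [← lcomp_sum]
  congr 1
  exact Om_K k C A hC (fun p => cR k C (ξ p) i) (fun j w => h' i j w) q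

include hC in
/-- the left kernel of `A` over `S` -/
theorem leftK (hinj : Function.Injective (Th k C R)) (t : Fin m → TT k C (WW k C) R)
    (h : ∀ j, ∑ p, Th k C R (t p) ∘ₗ TH k C (WW k C) R (A p j) = 0) (q : Fin m) :
    ∑ p, Th k C R (t p) ∘ₗ (sg k C p ∘ₗ TH k C (WW k C) (NN C) (pe C q)) = Th k C R (t q) := by
  have h1 : ∀ j, ∑ p, ((op (A p j) • (t p).1,
      LinearMap.lTensor (VV k C R) (raW k C (A p j)) (t p).2) : TT k C (WW k C) R) = 0 := by
    intro j
    apply hinj
    rw [map_sum, map_zero, ← h j]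
    exact Finset.sum_congr rfl fun p _ => (Th_TH k C (A p j) (t p)).symm
  have h2 : ∀ j, ∑ p, op (A p j) • (t p).1 = 0 := by
    intro j
    have := congrArg Prod.fst (h1 j)
    rw [Prod.fst_sum] at this
    exact this
  have h3 : ∀ j, ∑ p, LinearMap.lTensor (VV k C R) (raW k C (A p j)) (t p).2 = 0 := by
    intro j
    have := congrArg Prod.snd (h1 j)
    rw [Prod.snd_sum] at this
    exact this
  have h4 : ∀ p, Th k C R (t p) = TH k C (WW k C) R (t p).1 + Psi k C R (t p).2 := fun p => rfl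
  have h5 : ∀ p, Th k C R (t p) ∘ₗ (sg k C p ∘ₗ TH k C (WW k C) (NN C) (pe C q)) =
      (TH k C (WW k C) R (t p).1 ∘ₗ sg k C p) ∘ₗ TH k C (WW k C) (NN C) (pe C q) +
      Psi k C R (t p).2 ∘ₗ (sg k C p ∘ₗ TH k C (WW k C) (NN C) (pe C q)) := by
    intro p
    rw [h4, LinearMap.add_comp, LinearMap.comp_assoc]
  rw [Finset.sum_congr rfl fun p _ => h5 p, Finset.sum_add_distrib, h4 q,
    Psi_K k C A hC (fun p => (t p).2) h3 q, ← lsum_comp, nus_eq k C (fun p => (t p).1),
    nus_pe k C (mem_KK_R k C A hC _ h2) q]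

end

end Pool.Agent.H623R3.NORE
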