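import Pool.Agent.H354.NORE.Fin
import Pool.Agent.H354.NORE.E1
import Pool.Agent.H30R3.NOREDual
import Pool.Agent.H9R4.NORE.Base
import Pool.Agent.H397R3.NORE.E4
import Pool.Agent.H920R3.NORE.T0
import Pool.Agent.H975.NORE.T1
import Pool.Agent.H263R3.NORE_L

/-!
# An RD domain that is not an Ore domain

There is a domain over which every RD-pure embedding of right modules is pure, and which is neither
left Ore nor right Ore.
-/

namespace Pool.Agent.H354.NORE.NonOreRD

open H354RD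

theorem nonOreRD : ∃ (R : Type) (_ : Ring R), IsDomain R ∧ IsRD R ∧ ¬ LeftOre R ∧ ¬ RightOre R :=
  H354P.nonOre_of (Pool.Agent.H623R3.NORE.taskE1 ℚ) (H354P.taskDual ℚ) (H354P.taskE4_397 ℚ)
    (Pool.Agent.H975.NORE.taskT1 ℚ (H920NORE.taskT0 ℚ)) (H354P.taskBase ℚ) (H263NORE.taskL ℚ)

end Pool.Agent.H354.NORE.NonOreRD
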