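import Pool.Agent.H354.NORE.Stmts

/-! Task X. -/

set_option autoImplicit false

namespace H354P

open Matrix

section
variable {R : Type} [Ring R]

theorem cert_mk {m n : ℕ} (A : Matrix (Fin m) (Fin n) R) (e : Matrix (Fin m) (Fin m) R)
    (f : Matrix (Fin n) (Fin n) R) (s : Matrix (Fin n) (Fin m) R)
    (a : Matrix (Fin m) (Fin 1) R) (b : Matrix (Fin 1) (Fin m) R)
    (c : Matrix (Fin n) (Fin 1) R) (d : Matrix (Fin 1) (Fin n) R)
    (heA : e * A = 0) (hAf : A * f = 0) (hab : a * b = 1 - e - A * s) (hba : b * a = 1)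
    (hcd : c * d = 1 - f - s * A) (hdc : d * c = 1) : Cert A := by
  have habA : a * b * A = A - A * s * A := by
    rw [hab, Matrix.sub_mul, Matrix.sub_mul, Matrix.one_mul, heA, sub_zero]
  have hAcd : A * (c * d) = A - A * s * A := by
    rw [hcd, Matrix.mul_sub, Matrix.mul_sub, Matrix.mul_one, hAf, sub_zero, Matrix.mul_assoc]
  have hbA : b * A = b * A * c * d := by
    calc b * A = b * (a * b * A) := by
          rw [← Matrix.mul_assoc, ← Matrix.mul_assoc, hba, Matrix.one_mul]
      _ = b * (A * (c * d)) := by rw [habA, hAcd]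
      _ = b * A * c * d := by simp only [Matrix.mul_assoc]
  have hAc : a * (b * A * c) = A * c := by
    calc a * (b * A * c) = (a * b * A) * c := by simp only [Matrix.mul_assoc]
      _ = (A * (c * d)) * c := by rw [habA, hAcd]
      _ = A * (c * (d * c)) := by simp only [Matrix.mul_assoc]
      _ = A * c := by rw [hdc, Matrix.mul_one]
  let r : Fin (m + 1) → R := fun l => Fin.cases ((b * A * c) 0 0) (fun _ => 0) l
  let U : Matrix (Fin m) (Fin (m + 1)) R := fun i l =>
    Fin.cases (a i 0) (fun j => (1 : Matrix (Fin m) (Fin m) R) i j) l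
  let X : Matrix (Fin (m + 1)) (Fin m) R := fun l j =>
    Fin.cases (b 0 j) (fun i => e i j) l
  let z : Matrix (Fin (m + 1)) (Fin n) R := fun l j =>
    Fin.cases (d 0 j) (fun _ => 0) l
  let w : Matrix (Fin n) (Fin (m + 1)) R := fun j l =>
    Fin.cases (c j 0) (fun _ => 0) l
  refine ⟨m + 1, r, U, X, s, z, w, ?_, ?_, ?_⟩
  · ext i j
    rw [Matrix.add_apply, Matrix.mul_apply, Fin.sum_univ_succ]
    have h1 : a i 0 * b 0 j = (1 - e - A * s : Matrix (Fin m) (Fin m) R) i j := by
      rw [← hab, Matrix.mul_apply, Fin.sum_univ_one]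
    have h2 : ∑ l : Fin m, (1 : Matrix (Fin m) (Fin m) R) i l * e l j = e i j := by
      rw [← Matrix.mul_apply, Matrix.one_mul]
    show a i 0 * b 0 j + ∑ l : Fin m, (1 : Matrix (Fin m) (Fin m) R) i l * e l j + (A * s) i j
      = (1 : Matrix (Fin m) (Fin m) R) i j
    rw [h1, h2, Matrix.sub_apply, Matrix.sub_apply]
    abel
  · ext l j
    rw [Matrix.diagonal_mul, Matrix.mul_apply]
    refine Fin.cases ?_ (fun i => ?_) l
    · show ∑ t : Fin m, b 0 t * A t j = (b * A * c) 0 0 * d 0 j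
      have h1 := congrFun (congrFun hbA 0) j
      rw [Matrix.mul_apply, Matrix.mul_apply (M := b * A * c), Fin.sum_univ_one] at h1
      exact h1
    · show ∑ t : Fin m, e i t * A t j = 0 * 0
      have h1 := congrFun (congrFun heA i) j
      rw [Matrix.mul_apply] at h1
      rw [h1, mul_zero]
      rfl
  · ext i l
    rw [Matrix.mul_diagonal, Matrix.mul_apply]
    refine Fin.cases ?_ (fun j => ?_) l
    · show a i 0 * (b * A * c) 0 0 = ∑ t : Fin n, A i t * c t 0
      have h1 := congrFun (congrFun hAc i) 0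
      rw [Matrix.mul_apply, Matrix.mul_apply (M := A) (N := c), Fin.sum_univ_one] at h1
      exact h1
    · show (1 : Matrix (Fin m) (Fin m) R) i j * 0 = ∑ t : Fin n, A i t * 0
      simp only [mul_zero, Finset.sum_const_zero]

/-- `A ⊕ 1_2` -/
def stab {m n : ℕ} (A : Matrix (Fin m) (Fin n) R) : Matrix (Fin (m + 2)) (Fin (n + 2)) R :=
  (fromBlocks A 0 0 (1 : Matrix (Fin 2) (Fin 2) R)).submatrix finSumFinEquiv.symm
    finSumFinEquiv.symm

theorem stab_cc {m n : ℕ} (A : Matrix (Fin m) (Fin n) R) (i : Fin m) (j : Fin n) :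
    stab A (Fin.castAdd 2 i) (Fin.castAdd 2 j) = A i j := by
  simp [stab]

theorem stab_cn {m n : ℕ} (A : Matrix (Fin m) (Fin n) R) (i : Fin m) (j : Fin 2) :
    stab A (Fin.castAdd 2 i) (Fin.natAdd n j) = 0 := by
  simp [stab]

theorem stab_nc {m n : ℕ} (A : Matrix (Fin m) (Fin n) R) (i : Fin 2) (j : Fin n) :
    stab A (Fin.natAdd m i) (Fin.castAdd 2 j) = 0 := by
  simp [stab]

theorem stab_nn {m n : ℕ} (A : Matrix (Fin m) (Fin n) R) (i : Fin 2) (j : Fin 2) :
    stab A (Fin.natAdd m i) (Fin.natAdd n j) = (1 : Matrix (Fin 2) (Fin 2) R) i j := by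
  simp [stab]

theorem cert_of_stab {m n : ℕ} (A : Matrix (Fin m) (Fin n) R) (h : Cert (stab A)) : Cert A := by
  obtain ⟨l, r, U, X, s, z, w, h1, h2, h3⟩ := h
  refine ⟨l, r, U.submatrix (Fin.castAdd 2) id, X.submatrix id (Fin.castAdd 2),
    s.submatrix (Fin.castAdd 2) (Fin.castAdd 2), z.submatrix id (Fin.castAdd 2),
    w.submatrix (Fin.castAdd 2) id, ?_, ?_, ?_⟩
  · ext i j
    have h4 := congrFun (congrFun h1 (Fin.castAdd 2 i)) (Fin.castAdd 2 j)
    rw [Matrix.add_apply, Matrix.mul_apply, Matrix.mul_apply, Fin.sum_univ_add] at h4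
    simp only [stab_cc, stab_cn, zero_mul, Finset.sum_const_zero, add_zero] at h4
    rw [Matrix.add_apply, Matrix.mul_apply, Matrix.mul_apply]
    simp only [Matrix.submatrix_apply, id_eq]
    rw [h4]
    simp only [Matrix.one_apply, Fin.castAdd_inj]
  · ext a j
    have h4 := congrFun (congrFun h2 a) (Fin.castAdd 2 j)
    rw [Matrix.mul_apply, Fin.sum_univ_add] at h4
    simp only [stab_cc, stab_nc, mul_zero, Finset.sum_const_zero, add_zero] at h4
    rw [Matrix.mul_apply, Matrix.diagonal_mul]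
    rw [Matrix.diagonal_mul] at h4
    exact h4
  · ext i a
    have h4 := congrFun (congrFun h3 (Fin.castAdd 2 i)) a
    rw [Matrix.mul_apply (M := stab A) (N := w), Fin.sum_univ_add] at h4
    simp only [stab_cc, stab_cn, zero_mul, Finset.sum_const_zero, add_zero] at h4
    rw [Matrix.mul_apply (M := A), Matrix.mul_diagonal]
    rw [Matrix.mul_diagonal] at h4
    exact h4

theorem stab_map {S : Type} [Ring S] {m n : ℕ} (A : Matrix (Fin m) (Fin n) R) (φ : R → S)
    (h0 : φ 0 = 0) (h1 : φ 1 = 1) : (stab A).map φ = stab (A.map φ) := by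
  ext i j
  refine Fin.addCases (fun i => ?_) (fun i => ?_) i <;>
  refine Fin.addCases (fun j => ?_) (fun j => ?_) j
  · simp only [Matrix.map_apply, stab_cc]
  · simp only [Matrix.map_apply, stab_cn, h0]
  · simp only [Matrix.map_apply, stab_nc, h0]
  · simp only [Matrix.map_apply, stab_nn, Matrix.one_apply]
    split_ifs <;> assumption

theorem stab_ne [IsDomain R] {m n : ℕ} (A : Matrix (Fin m) (Fin n) R) :
    ¬ ∃ (c : Fin (m + 2) → R) (d : Fin (n + 2) → R), stab A = vecMulVec c d := by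
  rintro ⟨c, d, h⟩
  have h00 := congrFun (congrFun h (Fin.natAdd m 0)) (Fin.natAdd n 0)
  have h01 := congrFun (congrFun h (Fin.natAdd m 0)) (Fin.natAdd n 1)
  have h11 := congrFun (congrFun h (Fin.natAdd m 1)) (Fin.natAdd n 1)
  rw [stab_nn, vecMulVec_apply] at h00 h01 h11
  rw [Matrix.one_apply_eq] at h00 h11
  rw [Matrix.one_apply_ne (by decide)] at h01
  rcases mul_eq_zero.1 h01.symm with h' | h'
  · rw [h', zero_mul] at h00
    exact one_ne_zero h00
  · rw [h', mul_zero] at h11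
    exact one_ne_zero h11

end

theorem taskX (k : Type) [Field k] : TaskX k := by
  intro hE1 hE2 hE4 hT R _ _ _ m n A
  obtain ⟨S1, _, _, _, φ1, e, hi1, heA, hleft, -⟩ := hE1 R (m + 2) (n + 2) (stab A)
  obtain ⟨S2, _, _, _, φ2, f, hi2, hAf, hright, hpres⟩ :=
    hE2 S1 (m + 2) (n + 2) ((stab A).map φ1)
  have hleft2 := hpres (m + 2) (n + 2) ((stab A).map φ1) e heA hleft
  have heA2 : e.map φ2 * ((stab A).map φ1).map φ2 = 0 := by
    rw [← Matrix.map_mul, heA, Matrix.map_zero _ (map_zero φ2)]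
  have hne : ¬ ∃ (c : Fin (m + 2) → S2) (d : Fin (n + 2) → S2),
      ((stab A).map φ1).map φ2 = vecMulVec c d := by
    rw [stab_map A φ1 (map_zero _) (map_one _), stab_map _ φ2 (map_zero _) (map_one _)]
    exact stab_ne _
  obtain ⟨S3, _, _, _, φ3, s, hi3, -, -, -, D1, D2⟩ :=
    hE4 S2 (m + 2) (n + 2) (((stab A).map φ1).map φ2) (e.map φ2) f heA2 hAf hleft2 hright hne
  obtain ⟨S4, _, _, _, φ4, a, b, c, d, hi4, hab, hba, hcd, hdc⟩ :=
    hT S3 (m + 2) (n + 2) _ _ D2 D1
  refine ⟨S4, inferInstance, inferInstance, inferInstance,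
    φ4.comp (φ3.comp (φ2.comp φ1)), ?_, ?_⟩
  · exact hi4.comp (hi3.comp (hi2.comp hi1))
  · apply cert_of_stab
    have hmap : stab (A.map (φ4.comp (φ3.comp (φ2.comp φ1)))) =
        ((((stab A).map φ1).map φ2).map φ3).map φ4 := by
      rw [← stab_map A _ (map_zero _) (map_one _)]
      rfl
    rw [hmap]
    refine cert_mk _ (((e.map φ2).map φ3).map φ4) ((f.map φ3).map φ4) (s.map φ4) a b c d
      ?_ ?_ ?_ hba ?_ hdc
    · rw [← Matrix.map_mul, ← Matrix.map_mul, heA2, Matrix.map_zero _ (map_zero φ3),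
        Matrix.map_zero _ (map_zero φ4)]
    · rw [← Matrix.map_mul, ← Matrix.map_mul, hAf, Matrix.map_zero _ (map_zero φ3),
        Matrix.map_zero _ (map_zero φ4)]
    · rw [hab, Matrix.map_sub _ (map_sub φ4), Matrix.map_sub _ (map_sub φ4), Matrix.map_mul,
        Matrix.map_one _ (map_zero φ4) (map_one φ4)]
    · rw [hcd, Matrix.map_sub _ (map_sub φ4), Matrix.map_sub _ (map_sub φ4), Matrix.map_mul,
        Matrix.map_one _ (map_zero φ4) (map_one φ4)]

end H354P
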